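import Mathlib
import Pool.Agent.W262.RK.Stm2
import Pool.Agent.W22.RK.Loc
import Pool.Agent.W214.RK.Half
import Pool.Agent.W505.RK.RKB
import Pool.Agent.W599.RK.Desc

/-!
# RK2-DESC4: the 2-descent with arbitrary local conditions
-/

namespace Pool.Agent.W214.RK2

open Finset Pool.Agent.W262.RK Pool.Agent.W599.RK

/-- decomposition of a squarefree integer at `p` -/
lemma dec (p : ℕ) (hp : p.Prime) (a : ℤ) (ha : Squarefree a) :
    ∃ a' : ℤ, a = (if dv p a then (p : ℤ) else 1) * a' ∧ ¬ (p : ℤ) ∣ a' ∧ sgn p a = sg0 p a' := by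
  have hp0 : (p : ℤ) ≠ 0 := by exact_mod_cast hp.ne_zero
  by_cases h : (p : ℤ) ∣ a
  · obtain ⟨a', rfl⟩ := h
    refine ⟨a', ?_, ?_, ?_⟩
    · unfold dv; simp
    · intro h
      have h2 := ha (p : ℤ) (mul_dvd_mul_left _ h)
      rw [Int.isUnit_iff] at h2
      have := hp.one_lt
      omega
    · have hg : (Int.gcd ((p : ℤ) * a') (p : ℤ) : ℤ) = p := by
        rw [Int.gcd_mul_right_left]
        simp
      unfold sgn
      rw [hg, Int.mul_ediv_cancel_left _ hp0]
  · refine ⟨a, ?_, h, ?_⟩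
    · unfold dv; simp [h]
    · have hg : Int.gcd a (p : ℤ) = 1 := by
        rw [Int.gcd_comm]
        have h1 : IsCoprime (p : ℤ) a :=
          (Prime.coprime_iff_not_dvd (Nat.prime_iff_prime_int.mp hp)).mpr h
        exact Int.isCoprime_iff_gcd_eq_one.mp h1
      unfold sgn
      rw [hg]
      simp

lemma sq_cancel (p : ℕ) (hp : p.Prime) (Y : ℤ) (h : IsSquare ((p : ℤ) ^ 2 * Y)) : IsSquare Y := by
  obtain ⟨r, hr⟩ := h
  have hp0 : (p : ℤ) ≠ 0 := by exact_mod_cast hp.ne_zero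
  have h1 : (p : ℤ) ∣ r * r := by rw [← hr, pow_two, mul_assoc]; exact dvd_mul_right _ _
  have h2 : (p : ℤ) ∣ r := by
    rcases (Nat.prime_iff_prime_int.mp hp).dvd_or_dvd h1 with h | h <;> exact h
  obtain ⟨r', rfl⟩ := h2
  refine ⟨r', ?_⟩
  have h3 : (p : ℤ) ^ 2 * Y = (p : ℤ) ^ 2 * (r' * r') := by rw [hr]; ring
  exact mul_left_cancel₀ (pow_ne_zero 2 hp0) h3

lemma sq_odd (p : ℕ) (hp : p.Prime) (Y : ℤ) (hY : ¬ (p : ℤ) ∣ Y) : ¬ IsSquare ((p : ℤ) * Y) := by
  rintro ⟨r, hr⟩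
  have hp0 : (p : ℤ) ≠ 0 := by exact_mod_cast hp.ne_zero
  have h1 : (p : ℤ) ∣ r * r := by rw [← hr]; exact dvd_mul_right _ _
  have h2 : (p : ℤ) ∣ r := by
    rcases (Nat.prime_iff_prime_int.mp hp).dvd_or_dvd h1 with h | h <;> exact h
  obtain ⟨r', rfl⟩ := h2
  apply hY
  refine ⟨r' * r', ?_⟩
  have h3 : (p : ℤ) * Y = (p : ℤ) * (p * (r' * r')) := by rw [hr]; ring
  exact mul_left_cancel₀ hp0 h3

lemma jac_sq (p : ℕ) (hp : p.Prime) (Y : ℤ) (hY : ¬ (p : ℤ) ∣ Y) (h : IsSquare Y) :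
    jacobiSym Y p = 1 := by
  obtain ⟨r, rfl⟩ := h
  rw [← pow_two]
  apply jacobiSym.sq_one'
  have h1 : ¬ (p : ℤ) ∣ r := fun h => hY (dvd_mul_of_dvd_left h _)
  rw [Int.gcd_comm]
  exact Int.isCoprime_iff_gcd_eq_one.mp
    ((Prime.coprime_iff_not_dvd (Nat.prime_iff_prime_int.mp hp)).mpr h1)

lemma jac_pm (p : ℕ) (hp : p.Prime) (Y : ℤ) (hY : ¬ (p : ℤ) ∣ Y) :
    jacobiSym Y p = 1 ∨ jacobiSym Y p = -1 := by
  apply jacobiSym.eq_one_or_neg_one
  rw [Int.gcd_comm]
  exact Int.isCoprime_iff_gcd_eq_one.mp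
    ((Prime.coprime_iff_not_dvd (Nat.prime_iff_prime_int.mp hp)).mpr hY)

/-- the square class is additive in the local data -/
lemma key (p : ℕ) (hp : p.Prime) (a b c : ℤ) (ha : Squarefree a) (hb : Squarefree b)
    (hc : Squarefree c) (h : IsSquare (a * b * c)) :
    dv p c = xor (dv p a) (dv p b) ∧ sgn p c = xor (sgn p a) (sgn p b) := by
  obtain ⟨a', ha1, ha2, ha3⟩ := dec p hp a ha
  obtain ⟨b', hb1, hb2, hb3⟩ := dec p hp b hb
  obtain ⟨c', hc1, hc2, hc3⟩ := dec p hp c hc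
  have hpi := Nat.prime_iff_prime_int.mp hp
  have hY : ¬ (p : ℤ) ∣ a' * b' * c' := by
    intro h
    rcases hpi.dvd_or_dvd h with h | h
    · rcases hpi.dvd_or_dvd h with h | h
      · exact ha2 h
      · exact hb2 h
    · exact hc2 h
  have main : dv p c = xor (dv p a) (dv p b) ∧ IsSquare (a' * b' * c') := by
    rw [ha1, hb1, hc1] at h
    generalize dv p a = u at h ⊢
    generalize dv p b = v at h ⊢
    generalize dv p c = w at h ⊢
    cases u <;> cases v <;> cases w <;>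
      simp only [Bool.false_eq_true, if_false, if_true, one_mul, Bool.xor_false, Bool.xor_true,
        Bool.not_false, Bool.not_true, true_and, false_and, reduceCtorEq] at h ⊢
    · exact h
    · exact sq_odd p hp _ hY (by convert h using 1; ring)
    · exact sq_odd p hp _ hY (by convert h using 1; ring)
    · exact sq_cancel p hp _ (by convert h using 1; ring)
    · exact sq_odd p hp _ hY (by convert h using 1; ring)
    · exact sq_cancel p hp _ (by convert h using 1; ring)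
    · exact sq_cancel p hp _ (by convert h using 1; ring)
    · exact sq_odd p hp _ hY (sq_cancel p hp _ (by convert h using 1; ring))
  refine ⟨main.1, ?_⟩
  have hJ := jac_sq p hp _ hY main.2
  rw [jacobiSym.mul_left, jacobiSym.mul_left] at hJ
  rw [ha3, hb3, hc3]
  unfold sg0
  rcases jac_pm p hp a' ha2 with h1 | h1 <;> rcases jac_pm p hp b' hb2 with h2 | h2 <;>
    rcases jac_pm p hp c' hc2 with h3 | h3 <;> rw [h1, h2, h3] at hJ ⊢ <;> simp at hJ ⊢

/-- squarefree representatives -/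
lemma exists_rep (x : ℚ) (hx : x ≠ 0) : ∃ e : ℤ, Squarefree e ∧ IsSquare (x * e) := by
  have hnum : x.num ≠ 0 := Rat.num_ne_zero.mpr hx
  have hden : (x.den : ℚ) ≠ 0 := by exact_mod_cast x.den_nz
  set n : ℤ := x.num * x.den with hn
  have hn0 : n ≠ 0 := mul_ne_zero hnum (by exact_mod_cast x.den_nz)
  obtain ⟨a, k, hak, ha⟩ := Nat.sq_mul_squarefree n.natAbs
  have hxn : x * (x.den : ℚ) ^ 2 = n := by
    have h1 : x * x.den = x.num := Rat.mul_den_eq_num x
    rw [hn]
    push_cast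
    rw [pow_two, ← mul_assoc, h1]
  refine ⟨n.sign * a, ?_, (k : ℚ) * a / x.den, ?_⟩
  · have h1 : Squarefree (a : ℤ) := Int.squarefree_natCast.mpr ha
    rcases lt_or_gt_of_ne hn0 with h | h
    · rw [Int.sign_eq_neg_one_of_neg h, neg_one_mul]
      rw [← Int.squarefree_natAbs] at h1 ⊢
      rwa [Int.natAbs_neg]
    · rw [Int.sign_eq_one_of_pos h, one_mul]; exact h1
  · have h2 : (n : ℚ) * ((n.sign : ℤ) : ℚ) = (k : ℚ) ^ 2 * a := by
      have h3 : n * n.sign = n.natAbs := by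
        rw [mul_comm]; exact Int.sign_mul_self_eq_natAbs n
      have h4 : ((n * n.sign : ℤ) : ℚ) = ((k ^ 2 * a : ℕ) : ℚ) := by
        rw [h3, hak, Int.cast_natCast]
      push_cast at h4
      exact h4
    have h5 : x = n / (x.den : ℚ) ^ 2 := by
      rw [← hxn]; field_simp
    have h6 : x * ((n.sign * a : ℤ) : ℚ) = (n * ((n.sign : ℤ) : ℚ)) * a / (x.den : ℚ) ^ 2 := by
      conv_lhs => rw [h5]
      push_cast
      ring
    rw [h6, h2]
    field_simp

/-- the outer data of a point -/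
noncomputable def outg (OP : Finset ℕ) (A B : ℤ) (P : X A B) : Out OP := by
  classical exact
  (decide (0 < P.1.1), decide (0 < P.1.1 - A),
    fun q => (decide (Even (padicValRat q.1 P.1.1)),
      decide (Even (padicValRat q.1 (P.1.1 - A)))))

open Classical in
/-- the divisor of a pair of rational numbers -/
noncomputable def dd (m : ℕ) (x x' : ℚ) : ℕ :=
  ∏ p ∈ m.primeFactors.filter (fun p => ¬ (Even (padicValRat p x) ↔ Even (padicValRat p x'))), p

lemma dd_dvd (m : ℕ) (hm : Squarefree m) (x x' : ℚ) : dd m x x' ∣ m := by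
  classical
  have h := Nat.prod_primeFactors_of_squarefree hm
  conv_rhs => rw [← h]
  exact Finset.prod_dvd_prod_of_subset _ _ _ (Finset.filter_subset _ _)

lemma prime_dvd_dd (m : ℕ) (hm : Squarefree m) (x x' : ℚ) (q : ℕ) (hq : q.Prime) :
    q ∣ dd m x x' ↔ (q ∣ m ∧ ¬ (Even (padicValRat q x) ↔ Even (padicValRat q x'))) := by
  classical
  unfold dd
  rw [Prime.dvd_finsetProd_iff hq.prime]
  constructor
  · rintro ⟨p, hp, hqp⟩
    rw [Finset.mem_filter, Nat.mem_primeFactors] at hp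
    have : q = p := (Nat.prime_dvd_prime_iff_eq hq hp.1.1).mp hqp
    rw [this]
    exact ⟨hp.1.2.1, hp.2⟩
  · rintro ⟨h1, h2⟩
    exact ⟨q, Finset.mem_filter.mpr ⟨Nat.mem_primeFactors.mpr ⟨hq, h1, hm.ne_zero⟩, h2⟩,
      dvd_rfl⟩

lemma dd_sq (m : ℕ) (hm : Squarefree m) (x x' : ℚ) (hx : x ≠ 0) (hx' : x' ≠ 0)
    (hs : 0 < x ↔ 0 < x') (hv : ∀ q : ℕ, q.Prime → ¬ q ∣ m →
      (Even (padicValRat q x) ↔ Even (padicValRat q x'))) : IsSquare (x * x' * (dd m x x' : ℚ)) := by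
  have hsq : Squarefree (dd m x x') := hm.squarefree_of_dvd (dd_dvd m hm x x')
  have h0 : (dd m x x' : ℚ) ≠ 0 := by exact_mod_cast hsq.ne_zero
  have hpos : 0 < x * x' := by
    rcases lt_or_gt_of_ne hx with h1 | h1
    · rcases lt_or_gt_of_ne hx' with h2 | h2
      · exact mul_pos_of_neg_of_neg h1 h2
      · exact absurd (hs.mpr h2) (not_lt.mpr h1.le)
    · exact mul_pos h1 (hs.mp h1)
  apply isSquare_of_even
  · exact mul_pos hpos (lt_of_le_of_ne (Nat.cast_nonneg _) h0.symm)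
  · intro q hq
    have : Fact q.Prime := ⟨hq⟩
    rw [even_mul_iff q hpos.ne' h0, even_mul_iff q hx hx', val_sqfree _ q hsq]
    by_cases hqm : q ∣ m
    · by_cases he : (Even (padicValRat q x) ↔ Even (padicValRat q x'))
      · rw [if_neg (fun h => ((prime_dvd_dd m hm x x' q hq).mp h).2 he)]
        simp [he]
      · rw [if_pos ((prime_dvd_dd m hm x x' q hq).mpr ⟨hqm, he⟩)]
        simp [he]
    · rw [if_neg (fun h => hqm ((prime_dvd_dd m hm x x' q hq).mp h).1)]
      simp [hv q hq hqm]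

/-- the local data of the divisor -/
lemma dd_key (m : ℕ) (hm : Squarefree m) (x x' : ℚ) (hx : x ≠ 0) (hx' : x' ≠ 0)
    (hsq : IsSquare (x * x' * (dd m x x' : ℚ))) (e e' : ℤ) (he : Squarefree e)
    (he' : Squarefree e') (hxe : IsSquare (x * e)) (hxe' : IsSquare (x' * e')) (p : ℕ)
    (hp : p.Prime) : dv p (dd m x x') = xor (dv p e) (dv p e') ∧
      sgn p (dd m x x') = xor (sgn p e) (sgn p e') := by
  have h0 : Squarefree (dd m x x') := hm.squarefree_of_dvd (dd_dvd m hm x x')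
  apply key p hp e e' _ he he' (Int.squarefree_natCast.mpr h0)
  have h1 := (hxe.mul hxe').mul hsq
  have h2 : IsSquare (((e * e' * (dd m x x' : ℤ) : ℤ) : ℚ)) := by
    apply Pool.Agent.W599.RK.IsSquare.cancel (a := (x * x') ^ 2) (IsSquare.sq _)
    · have e : (x * x') ^ 2 * ((e * e' * (dd m x x' : ℤ) : ℤ) : ℚ) =
          x * e * (x' * e') * (x * x' * (dd m x x' : ℚ)) := by push_cast; ring
      rw [e]; exact h1
    · exact pow_ne_zero 2 (mul_ne_zero hx hx')
  exact Rat.isSquare_intCast_iff.mp h2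

lemma one_le_NL (m : ℕ) (hm : m ≠ 0) (L : ℕ → Bool → Bool → Bool → Bool → Prop)
    (hL : ∀ p, p.Prime → p ∣ m → XC (L p)) : 1 ≤ NL m L := by
  classical
  unfold NL
  rw [Nat.one_le_iff_ne_zero, Finset.card_ne_zero]
  refine ⟨(1, 1), Finset.mem_filter.mpr ⟨?_, ?_⟩⟩
  · rw [Finset.mem_product]
    exact ⟨Nat.mem_divisors.mpr ⟨one_dvd _, hm⟩, Nat.mem_divisors.mpr ⟨one_dvd _, hm⟩⟩
  · intro p hp
    rw [Nat.mem_primeFactors] at hp
    have h1 := (hL p hp.1 hp.2.1).1
    have h2 : dv p ((1 : ℕ) : ℤ) = false := by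
      unfold dv
      rw [decide_eq_false_iff_not]
      intro h
      have h3 : p ∣ 1 := by exact_mod_cast h
      exact hp.1.one_lt.ne' (Nat.dvd_one.mp h3)
    have h3 : sgn p ((1 : ℕ) : ℤ) = false := by
      unfold sgn sg0
      simp
    show L p (dv p ((1 : ℕ) : ℤ)) (dv p ((1 : ℕ) : ℤ)) (sgn p ((1 : ℕ) : ℤ)) (sgn p ((1 : ℕ) : ℤ))
    rw [h2, h3]
    exact h1

theorem desc4 : DESC4 := by
  classical
  intro m L A B hA hB hAB hodd hm hL hloc
  obtain ⟨hfg, hhalf, hns, hcard4⟩ := Pool.Agent.W214.RK.half A B hA hB hAB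
  set OP : Finset ℕ := (2 * A * B * (A - B)).natAbs.primeFactors.filter (fun q => ¬ q ∣ m)
    with hOPdef
  have hD0 : 2 * A * B * (A - B) ≠ 0 :=
    mul_ne_zero (mul_ne_zero (mul_ne_zero two_ne_zero hA) hB) (sub_ne_zero.mpr hAB)
  have hOP : ∀ q : ℕ, q.Prime → (q : ℤ) ∣ 2 * A * B * (A - B) → ¬ q ∣ m → q ∈ OP := by
    intro q hq hqd hqs
    rw [hOPdef, Finset.mem_filter, Nat.mem_primeFactors]
    exact ⟨⟨hq, Int.natCast_dvd.mp hqd, Int.natAbs_ne_zero.mpr hD0⟩, hqs⟩
  set F : Finset (ℕ × ℕ) := (m.divisors ×ˢ m.divisors).filter (fun d : ℕ × ℕ =>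
    ∀ p ∈ m.primeFactors, L p (dv p d.1) (dv p d.2) (sgn p d.1) (sgn p d.2)) with hF
  have hFcard : F.card = NL m L := by
    unfold NL
    rw [hF]
  -- the trivial points
  set T0s : Set (EAB A B).toAffine.Point :=
    {P | P = 0 ∨ ∃ (x : ℚ) (h : (EAB A B).toAffine.Nonsingular x 0),
      P = WeierstrassCurve.Affine.Point.some x 0 h} with hT0s
  have hT0fin : T0s.Finite := by
    have hsub : T0s ⊆ insert 0 ((fun x : ℚ =>
        if h : (EAB A B).toAffine.Nonsingular x 0 then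
          WeierstrassCurve.Affine.Point.some x 0 h else 0) '' ({0, (A : ℚ), (B : ℚ)} : Set ℚ)) := by
      rintro P (rfl | ⟨x, h, rfl⟩)
      · exact Set.mem_insert _ _
      · right
        refine ⟨x, ?_, ?_⟩
        · have h5 := (hns x 0).mp h
          have h6 : x * (x - A) * (x - B) = 0 := by rw [← h5]; norm_num
          rcases mul_eq_zero.mp h6 with h7 | h7
          · rcases mul_eq_zero.mp h7 with h8 | h8
            · left; exact h8
            · right; left; exact sub_eq_zero.mp h8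
          · right; right; exact sub_eq_zero.mp h7
        · show (if h : (EAB A B).toAffine.Nonsingular x 0 then
            WeierstrassCurve.Affine.Point.some x 0 h else 0) = _
          rw [dif_pos h]
    exact ((Set.toFinite _).image _ |>.insert _).subset hsub
  set T0 : Finset (EAB A B).toAffine.Point := hT0fin.toFinset with hT0
  have hT0card : T0.card ≤ 4 := by
    have : T0s.ncard = T0.card := Set.ncard_eq_toFinset_card T0s hT0fin
    rw [← this]; exact hcard4
  -- the other points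
  let pt : X A B → (EAB A B).toAffine.Point := fun P =>
    WeierstrassCurve.Affine.Point.some P.1.1 P.1.2 ((hns _ _).mpr P.2.2)
  have hpt : ∀ (x y : ℚ) (h : (EAB A B).toAffine.Nonsingular x y) (hy : y ≠ 0),
      (WeierstrassCurve.Affine.Point.some x y h : (EAB A B).toAffine.Point) =
        pt ⟨(x, y), hy, (hns x y).mp h⟩ := fun x y h hy => rfl
  have hNL1 : 1 ≤ NL m L := one_le_NL m hm.ne_zero L hL
  have hx0 : ∀ P : X A B, P.1.1 ≠ 0 := fun P => w_ne_zero P.2.1 P.2.2 2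
  have hxA0 : ∀ P : X A B, P.1.1 - A ≠ 0 := fun P => w_ne_zero P.2.1 P.2.2 1
  -- comparison of two points with the same outer data
  have hcmp : ∀ P P' : X A B, outg OP A B P = outg OP A B P' →
      (0 < P.1.1 ↔ 0 < P'.1.1) ∧ (0 < P.1.1 - A ↔ 0 < P'.1.1 - A) ∧
      (∀ q : ℕ, q.Prime → ¬ q ∣ m →
        (Even (padicValRat q P.1.1) ↔ Even (padicValRat q P'.1.1)) ∧
        (Even (padicValRat q (P.1.1 - A)) ↔ Even (padicValRat q (P'.1.1 - A)))) := by
    intro P P' ho
    have h1 : decide (0 < P.1.1) = decide (0 < P'.1.1) := congrArg Prod.fst ho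
    have h23 := congrArg Prod.snd ho
    have h2 : decide (0 < P.1.1 - A) = decide (0 < P'.1.1 - A) := congrArg Prod.fst h23
    have h3 := congrArg Prod.snd h23
    refine ⟨decide_eq_decide.mp h1, decide_eq_decide.mp h2, fun q hq hqm => ?_⟩
    by_cases hD : (q : ℤ) ∣ 2 * A * B * (A - B)
    · have h4 := congrFun h3 ⟨q, hOP q hq hD hqm⟩
      have h5 : decide (Even (padicValRat q P.1.1)) = decide (Even (padicValRat q P'.1.1)) :=
        congrArg Prod.fst h4
      have h6 : decide (Even (padicValRat q (P.1.1 - A))) =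
          decide (Even (padicValRat q (P'.1.1 - A))) := congrArg Prod.snd h4
      exact ⟨decide_eq_decide.mp h5, decide_eq_decide.mp h6⟩
    · have : Fact q.Prime := ⟨hq⟩
      obtain ⟨a1, a2, -⟩ := Pool.Agent.W22.RK.good q A B hD P.1.1 P.1.2 P.2.1 P.2.2
      obtain ⟨b1, b2, -⟩ := Pool.Agent.W22.RK.good q A B hD P'.1.1 P'.1.2 P'.2.1 P'.2.2
      exact ⟨⟨fun _ => b1, fun _ => a1⟩, ⟨fun _ => b2, fun _ => a2⟩⟩
  have hsqs : ∀ P P' : X A B, outg OP A B P = outg OP A B P' →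
      IsSquare (P.1.1 * P'.1.1 * (dd m P.1.1 P'.1.1 : ℚ)) ∧
      IsSquare ((P.1.1 - A) * (P'.1.1 - A) * (dd m (P.1.1 - A) (P'.1.1 - A) : ℚ)) := by
    intro P P' ho
    obtain ⟨c1, c2, c3⟩ := hcmp P P' ho
    exact ⟨dd_sq m hm _ _ (hx0 P) (hx0 P') c1 (fun q hq hqm => (c3 q hq hqm).1),
      dd_sq m hm _ _ (hxA0 P) (hxA0 P') c2 (fun q hq hqm => (c3 q hq hqm).2)⟩
  have hFmem : ∀ P P' : X A B, outg OP A B P = outg OP A B P' →
      (dd m P.1.1 P'.1.1, dd m (P.1.1 - A) (P'.1.1 - A)) ∈ F := by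
    intro P P' ho
    obtain ⟨s1, s2⟩ := hsqs P P' ho
    rw [hF, Finset.mem_filter, Finset.mem_product]
    refine ⟨⟨Nat.mem_divisors.mpr ⟨dd_dvd m hm _ _, hm.ne_zero⟩,
      Nat.mem_divisors.mpr ⟨dd_dvd m hm _ _, hm.ne_zero⟩⟩, fun p hp => ?_⟩
    rw [Nat.mem_primeFactors] at hp
    have : Fact p.Prime := ⟨hp.1⟩
    obtain ⟨e1, he1, hxe1⟩ := exists_rep P.1.1 (hx0 P)
    obtain ⟨e2, he2, hxe2⟩ := exists_rep (P.1.1 - A) (hxA0 P)
    obtain ⟨f1, hf1, hxf1⟩ := exists_rep P'.1.1 (hx0 P')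
    obtain ⟨f2, hf2, hxf2⟩ := exists_rep (P'.1.1 - A) (hxA0 P')
    have l1 := hloc p hp.2.1 P.1.1 P.1.2 P.2.1 P.2.2 e1 e2 he1 he2
      (hxe1.map (Rat.castHom ℚ_[p])) (hxe2.map (Rat.castHom ℚ_[p]))
    have l2 := hloc p hp.2.1 P'.1.1 P'.1.2 P'.2.1 P'.2.2 f1 f2 hf1 hf2
      (hxf1.map (Rat.castHom ℚ_[p])) (hxf2.map (Rat.castHom ℚ_[p]))
    obtain ⟨k1, k2⟩ := dd_key m hm _ _ (hx0 P) (hx0 P') s1 e1 f1 he1 hf1 hxe1 hxf1 p hp.1
    obtain ⟨k3, k4⟩ := dd_key m hm _ _ (hxA0 P) (hxA0 P') s2 e2 f2 he2 hf2 hxe2 hxf2 p hp.1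
    show L p (dv p (dd m P.1.1 P'.1.1)) (dv p (dd m (P.1.1 - A) (P'.1.1 - A)))
      (sgn p (dd m P.1.1 P'.1.1)) (sgn p (dd m (P.1.1 - A) (P'.1.1 - A)))
    rw [k1, k2, k3, k4]
    exact (hL p hp.1 hp.2.1).2 _ _ _ _ _ _ _ _ l1 l2
  -- the set of representatives
  obtain ⟨T1, hT1card, hT1⟩ : ∃ T1 : Finset (EAB A B).toAffine.Point,
      T1.card ≤ 4 ^ (OP.card + 1) * NL m L ∧
      ∀ P : X A B, ∃ t ∈ T1, ∃ q : (EAB A B).toAffine.Point, pt P = t + (q + q) := by
    by_cases hX : Nonempty (X A B)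
    · let rep : Out OP → X A B := Function.invFun (outg OP A B)
      have hrep : ∀ P : X A B, outg OP A B (rep (outg OP A B P)) = outg OP A B P := fun P =>
        Function.invFun_eq ⟨P, rfl⟩
      let key : X A B → Out OP × (ℕ × ℕ) := fun P =>
        (outg OP A B P, (dd m P.1.1 (rep (outg OP A B P)).1.1,
          dd m (P.1.1 - A) ((rep (outg OP A B P)).1.1 - A)))
      let T1 : Finset (EAB A B).toAffine.Point :=
        ((Finset.univ : Finset (Out OP)) ×ˢ F).image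
          (fun k => pt (Function.invFun key k))
      refine ⟨T1, ?_, ?_⟩
      · refine Finset.card_image_le.trans ?_
        rw [Finset.card_product, Finset.card_univ, card_out, hFcard]
      · intro P
        have hkeyF : key P ∈ (Finset.univ : Finset (Out OP)) ×ˢ F := by
          rw [Finset.mem_product]
          exact ⟨Finset.mem_univ _, hFmem P _ (hrep P).symm⟩
        set P2 : X A B := Function.invFun key (key P) with hP2
        have hkey2 : key P2 = key P := Function.invFun_eq ⟨P, rfl⟩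
        have ho2 : outg OP A B P2 = outg OP A B P := congrArg Prod.fst hkey2
        have ht1 : dd m P2.1.1 (rep (outg OP A B P2)).1.1 =
          dd m P.1.1 (rep (outg OP A B P)).1.1 := congrArg (fun z => z.2.1) hkey2
        have ht2 : dd m (P2.1.1 - A) ((rep (outg OP A B P2)).1.1 - A) =
          dd m (P.1.1 - A) ((rep (outg OP A B P)).1.1 - A) := congrArg (fun z => z.2.2) hkey2
        set R : X A B := rep (outg OP A B P) with hR
        rw [ho2] at ht1 ht2
        obtain ⟨s1, s2⟩ := hsqs P R (hrep P).symm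
        obtain ⟨s3, s4⟩ := hsqs P2 R (ho2.trans (hrep P).symm)
        rw [ht1] at s3
        rw [ht2] at s4
        have canc : ∀ a b r : ℚ, ∀ d : ℕ, r ≠ 0 → d ≠ 0 → IsSquare (a * r * (d : ℚ)) →
            IsSquare (b * r * (d : ℚ)) → IsSquare (a * b) := by
          intro a b r d hr hd h1 h2
          have hd' : (d : ℚ) ≠ 0 := by exact_mod_cast hd
          apply Pool.Agent.W599.RK.IsSquare.cancel (a := (r * d) ^ 2) (IsSquare.sq _)
          · have h3 := h1.mul h2
            have e : (r * (d : ℚ)) ^ 2 * (a * b) = a * r * d * (b * r * d) := by ring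
            rw [e]; exact h3
          · exact pow_ne_zero 2 (mul_ne_zero hr hd')
        have hd1 : dd m P.1.1 R.1.1 ≠ 0 := (hm.squarefree_of_dvd (dd_dvd m hm _ _)).ne_zero
        have hd2 : dd m (P.1.1 - A) (R.1.1 - A) ≠ 0 :=
          (hm.squarefree_of_dvd (dd_dvd m hm _ _)).ne_zero
        have q1 : IsSquare (P.1.1 * P2.1.1) := canc _ _ _ _ (hx0 R) hd1 s1 s3
        have q2 : IsSquare ((P.1.1 - A) * (P2.1.1 - A)) := canc _ _ _ _ (hxA0 R) hd2 s2 s4
        have q3 : IsSquare ((P.1.1 - B) * (P2.1.1 - B)) := by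
          apply Pool.Agent.W599.RK.IsSquare.cancel (q1.mul q2)
          · have e : P.1.1 * P2.1.1 * ((P.1.1 - A) * (P2.1.1 - A)) * ((P.1.1 - B) * (P2.1.1 - B)) =
                (P.1.2 * P2.1.2) ^ 2 := by
              rw [mul_pow, P.2.2, P2.2.2]; ring
            rw [e]
            exact IsSquare.sq _
          · exact mul_ne_zero (mul_ne_zero (hx0 P) (hx0 P2)) (mul_ne_zero (hxA0 P) (hxA0 P2))
        obtain ⟨q, hq⟩ := hhalf P.1.1 P.1.2 P2.1.1 P2.1.2 ((hns _ _).mpr P.2.2)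
          ((hns _ _).mpr P2.2.2) P.2.1 P2.2.1 q1 q2 q3
        exact ⟨pt P2, Finset.mem_image.mpr ⟨key P, hkeyF, rfl⟩, q, hq⟩
    · refine ⟨∅, by simp, fun P => absurd ⟨P⟩ hX⟩
  have hfin := Pool.Agent.W505.RK.rkb (EAB A B).toAffine.Point hfg
    (4 ^ (OP.card + 2) * NL m L) (T0 ∪ T1)
    (by
      refine (Finset.card_union_le _ _).trans ?_
      have e1 : 4 ^ (OP.card + 2) = 4 * 4 ^ (OP.card + 1) := by rw [pow_succ]; ring
      have e2 : 4 ≤ 4 ^ (OP.card + 1) := by
        calc 4 = 4 ^ 1 := by norm_num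
          _ ≤ 4 ^ (OP.card + 1) := Nat.pow_le_pow_right (by norm_num) (by omega)
      have e3 : 4 ^ (OP.card + 1) ≤ 4 ^ (OP.card + 1) * NL m L :=
        Nat.le_mul_of_pos_right _ hNL1
      rw [e1, mul_assoc]
      omega)
    (by
      intro g
      match g with
      | 0 =>
        refine ⟨0, Finset.mem_union_left _ ?_, 0, by simp⟩
        rw [hT0, Set.Finite.mem_toFinset]
        exact Or.inl rfl
      | WeierstrassCurve.Affine.Point.some x y h =>
        by_cases hy : y = 0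
        · subst hy
          refine ⟨WeierstrassCurve.Affine.Point.some x 0 h, Finset.mem_union_left _ ?_, 0, by simp⟩
          rw [hT0, Set.Finite.mem_toFinset]
          exact Or.inr ⟨x, h, rfl⟩
        · obtain ⟨t, ht, q, hq⟩ := hT1 ⟨(x, y), hy, (hns x y).mp h⟩
          exact ⟨t, Finset.mem_union_right _ ht, q, by rw [hpt x y h hy]; exact hq⟩)
  exact hfin

end Pool.Agent.W214.RK2
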